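import Pool.Agent.helper9.Nag.Lead

/-! Moving the points: derivatives, infinitesimal linear maps and permutations. -/

set_option autoImplicit false

namespace Pool.Agent.helper9.Nag

open MvPolynomial Pool.Agent.helper5.NBS

variable {r : ℕ}

/-- the coordinates are algebraically independent over `ℚ` -/
def AI (p : Fin r → Fin 2 → ℂ) : Prop :=
  AlgebraicIndependent ℚ (fun x : Fin r × Fin 2 => p x.1 x.2)

/-- derivations dual to the coordinates of the points -/
def IsDers (p : Fin r → Fin 2 → ℂ) (D : Fin r → Fin 2 → Derivation ℤ ℂ ℂ) : Prop :=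
  ∀ j b i a, D j b (p i a) = if j = i ∧ b = a then 1 else 0

lemma exists_ders {p : Fin r → Fin 2 → ℂ} (hp : AI p) : ∃ D, IsDers p D := by
  classical
  have h : ∀ x : Fin r × Fin 2, ∃ δ : Derivation ℤ ℂ ℂ, ∀ y : Fin r × Fin 2,
      δ (p y.1 y.2) = if x.1 = y.1 ∧ x.2 = y.2 then 1 else 0 := fun x =>
    exists_derivation _ hp (fun y => if x.1 = y.1 ∧ x.2 = y.2 then 1 else 0)
  choose D hD using h
  exact ⟨fun j b => D (j, b), fun j b i a => hD (j, b) (i, a)⟩

variable {e : ℕ} {p : Fin r → Fin 2 → ℂ} {D : Fin r → Fin 2 → Derivation ℤ ℂ ℂ}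

lemma ders_other (hD : IsDers p D) {j i : Fin r} (h : j ≠ i) (b : Fin 2) (a : Fin 2) :
    D j b (p i a) = 0 := by
  rw [hD, if_neg (fun h1 => h h1.1)]

lemma ders_mem (hD : IsDers p D) {m : Fin r → ℕ} {G : R2} (hG : G ∈ HH e p m) (j : Fin r)
    (b : Fin 2) : cD (D j b) G ∈ HH e p (Function.update m j (m j - 1)) := by
  rw [mem_HH] at hG ⊢
  refine ⟨wdeg_cD _ hG.1, fun i => ?_⟩
  by_cases hi : i = j
  · subst hi
    rw [Function.update_self]
    exact cD_mem_pred _ (hG.2 i)
  · rw [Function.update_of_ne hi]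
    exact cD_mem_of_kill _ (ders_other hD (Ne.symm hi) b) (hG.2 i)

lemma ders_lam (hD : IsDers p D) {l : Fin r} {k : ℕ} {G : R2} (hG : G ∈ ptIdeal (p l) ^ (k + 1))
    (b : Fin 2) : lam (p l) k (cD (D l b) G) = - pderiv b (lam (p l) (k + 1) G) := by
  have h1 : vD (D l b) (Pi.single b 1) G ∈ ptIdeal (p l) ^ (k + 1) := by
    apply vD_mem _ _ _ _ hG
    intro i
    rw [hD]
    by_cases hib : i = b
    · subst hib
      simp
    · rw [if_neg (fun h => hib h.2.symm), Pi.single_eq_of_ne hib, map_zero]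
  have h2 : vD (D l b) (Pi.single b 1) G = cD (D l b) G + pderiv b G := by
    rw [vD_apply]
    fin_cases b <;> simp
  rw [h2] at h1
  have h3 : lam (p l) k (cD (D l b) G + pderiv b G) = 0 := by
    rw [lam_eq_zero_iff (Ideal.pow_le_pow_right (Nat.le_succ k) h1)]
    exact h1
  rw [map_add, lam_pderiv] at h3
  exact eq_neg_of_add_eq_zero_left h3

/-- adding a direction at the point `l` -/
lemma UU_growth (hD : IsDers p D) {m : Fin r → ℕ} {l : Fin r} {k : ℕ} (hm : m l = k + 1) :
    min (k + 1) (uu e p m l) ≤ uu e p (Function.update m l k) l ∧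
    (UU e p m l = Hm (k + 1) → UU e p (Function.update m l k) l = Hm k) := by
  have hU := UU_le e p m l
  have hW := UU_le e p (Function.update m l k) l
  rw [hm] at hU
  rw [Function.update_self] at hW
  apply growth hU hW
  rintro _ ⟨G, hG, rfl⟩ i
  have h1 := ders_mem hD hG l i
  rw [hm, Nat.add_sub_cancel] at h1
  have hG2 := (mem_HH.mp hG).2 l
  rw [hm] at hG2 ⊢
  have h2 := ders_lam hD hG2 i
  have h3 : lam (p l) k (cD (D l i) G) ∈ UU e p (Function.update m l k) l := by
    refine ⟨_, h1, ?_⟩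
    rw [Function.update_self]
  rw [h2] at h3
  exact (Submodule.neg_mem_iff _).mp h3

lemma UU_mono {m m' : Fin r → ℕ} {l : Fin r} (h : ∀ i, m' i ≤ m i) (hl : m' l = m l) :
    UU e p m l ≤ UU e p m' l := by
  rw [UU, UU, hl]
  exact Submodule.map_mono (HH_anti h)

lemma ders_UU (hD : IsDers p D) {m : Fin r → ℕ} {l j : Fin r} (hj : j ≠ l) (b : Fin 2) {θ : R2}
    (hθ : θ ∈ UU e p m l) : cD (D j b) θ ∈ UU e p (Function.update m j (m j - 1)) l := by
  obtain ⟨G, hG, rfl⟩ := hθ
  rw [← lam_cD (ders_other hD hj b)]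
  refine ⟨_, ders_mem hD hG j b, ?_⟩
  rw [Function.update_of_ne (Ne.symm hj)]

/-- infinitesimal linear maps centred at the point `l` -/
lemma gl2_stable (hD : IsDers p D) {m : Fin r → ℕ} {l : Fin r}
    (h : ∀ i, i ≠ l → ∀ b, ∀ θ ∈ UU e p m l, cD (D i b) θ ∈ UU e p m l) (a b : Fin 2) {θ : R2}
    (hθ : θ ∈ UU e p m l) : X a * pderiv b θ ∈ UU e p m l := by
  classical
  rcases Nat.eq_zero_or_pos (m l) with h0 | hpos
  · have h1 := UU_le e p m l hθ
    rw [h0, Hm, homogeneousSubmodule_zero] at h1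
    obtain ⟨c, rfl⟩ := Submodule.mem_one.mp h1
    rw [MvPolynomial.algebraMap_eq, pderiv_C, mul_zero]
    exact Submodule.zero_mem _
  · obtain ⟨k, hk⟩ : ∃ k, m l = k + 1 := ⟨m l - 1, by omega⟩
    have hθ0 := hθ
    obtain ⟨G, hG, rfl⟩ := hθ
    rw [hk] at hθ0 ⊢
    set δ : Derivation ℤ ℂ ℂ := ∑ i, (p i a - p l a) • D i b with hδ
    set ξ : Fin 2 → R2 := Pi.single b (X a - C (p l a)) with hξ
    have hδp : ∀ i c, δ (p i c) = if b = c then p i a - p l a else 0 := by
      intro i c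
      have h1 : δ (p i c) = ∑ j, (p j a - p l a) * D j b (p i c) := by
        rw [hδ]
        have : ∀ s : Finset (Fin r), (∑ j ∈ s, (p j a - p l a) • D j b) (p i c) =
            ∑ j ∈ s, (p j a - p l a) * D j b (p i c) := by
          intro s
          induction s using Finset.induction_on with
          | empty => simp
          | insert x s hx ih =>
            rw [Finset.sum_insert hx, Finset.sum_insert hx, Derivation.add_apply, ih]
            rfl
        exact this _
      rw [h1, Finset.sum_eq_single i]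
      · rw [hD]
        by_cases hbc : b = c
        · rw [if_pos ⟨rfl, hbc⟩, if_pos hbc, mul_one]
        · rw [if_neg (fun h => hbc h.2), if_neg hbc, mul_zero]
      · intro j _ hj
        rw [ders_other hD hj, mul_zero]
      · intro h; exact absurd (Finset.mem_univ _) h
    have hv : vD δ ξ G = cD δ G + (X a - C (p l a)) * pderiv b G := by
      rw [vD_apply, hξ]
      fin_cases b <;> simp
    have hG' := mem_HH.mp hG
    have hmem : vD δ ξ G ∈ HH e p m := by
      rw [mem_HH]
      constructor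
      · rw [hv, wdeg_le]
        intro n hn
        rw [coeff_add, wdeg_le.mp (wdeg_cD δ hG'.1) n hn,
          wdeg_le.mp (wdeg_X_pderiv hG'.1 a b (p l a)) n hn, add_zero]
      · intro i
        apply vD_mem _ _ _ _ (hG'.2 i)
        intro c
        rw [hδp, hξ]
        by_cases hbc : b = c
        · subst hbc
          rw [if_pos rfl, Pi.single_eq_same, map_sub, eval_X, eval_C]
        · rw [if_neg hbc, Pi.single_eq_of_ne (Ne.symm hbc), map_zero]
    have hmem2 : lam (p l) (k + 1) (vD δ ξ G) ∈ UU e p m l := ⟨_, hmem, by rw [hk]⟩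
    have hkill : ∀ c, δ (p l c) = 0 := by
      intro c
      rw [hδp, sub_self]
      split_ifs <;> rfl
    rw [hv, map_add, lam_cD hkill, lam_X_mul, lam_pderiv, hδ, cD_sum_smul] at hmem2
    have h3 : ∑ i, (p i a - p l a) • cD (D i b) (lam (p l) (k + 1) G) ∈ UU e p m l := by
      apply Submodule.sum_mem
      intro i _
      by_cases hi : i = l
      · subst hi
        rw [sub_self, zero_smul]
        exact Submodule.zero_mem _
      · exact Submodule.smul_mem _ _ (h i hi b _ hθ0)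
    have h4 := (UU e p m l).sub_mem hmem2 h3
    rwa [add_sub_cancel_left] at h4

/-- a space of leading forms which is stable under the motions is everything -/
lemma UU_full (hD : IsDers p D) {m : Fin r → ℕ} {l : Fin r} (h0 : UU e p m l ≠ ⊥)
    (h : ∀ i, i ≠ l → ∀ b, ∀ θ ∈ UU e p m l, cD (D i b) θ ∈ UU e p m l) :
    UU e p m l = Hm (m l) :=
  gl2 (UU_le e p m l) h0 (fun _ hθ => gl2_stable hD h 0 1 hθ)
    (fun _ hθ => gl2_stable hD h 1 0 hθ)

/-- field automorphisms act -/
lemma map_mem_HH {τ : ℂ ≃+* ℂ} {σ : Equiv.Perm (Fin r)} (hτ : ∀ i a, τ (p i a) = p (σ i) a)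
    {m : Fin r → ℕ} {F : R2} (hF : F ∈ HH e p m) :
    MvPolynomial.map (τ : ℂ →+* ℂ) F ∈ HH e p (fun i => m (σ.symm i)) := by
  rw [mem_HH] at hF ⊢
  constructor
  · rw [wdeg_le]
    intro n hn
    rw [coeff_map, wdeg_le.mp hF.1 n hn, map_zero]
  · intro i
    obtain ⟨j, rfl⟩ := σ.surjective i
    rw [Equiv.symm_apply_apply]
    have h1 : Ideal.map (MvPolynomial.map (τ : ℂ →+* ℂ)) (ptIdeal (p j)) ≤ ptIdeal (p (σ j)) := by
      rw [ptIdeal, Ideal.map_span, Ideal.span_le]
      rintro _ ⟨_, ⟨a, rfl⟩, rfl⟩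
      rw [map_sub, map_X, map_C]
      have h2 : (τ : ℂ →+* ℂ) (p j a) = p (σ j) a := hτ j a
      rw [h2]
      exact Ideal.subset_span ⟨a, rfl⟩
    have h2 := Ideal.mem_map_of_mem (MvPolynomial.map (τ : ℂ →+* ℂ)) (hF.2 j)
    rw [Ideal.map_pow] at h2
    exact Ideal.pow_right_mono h1 _ h2

lemma hh_perm (hp : AI p) (m : Fin r → ℕ) (σ : Equiv.Perm (Fin r)) :
    hh e p (fun i => m (σ.symm i)) = hh e p m := by
  obtain ⟨τ, hτ⟩ := exists_auto _ hp (σ.prodCongr (Equiv.refl (Fin 2)))
  have hτ' : ∀ i a, τ (p i a) = p (σ i) a := fun i a => hτ (i, a)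
  have hτs : ∀ i a, τ.symm (p i a) = p (σ.symm i) a := by
    intro i a
    rw [RingEquiv.symm_apply_eq, hτ', Equiv.apply_symm_apply]
  have hinv : ∀ F : R2, MvPolynomial.map (τ.symm : ℂ →+* ℂ) (MvPolynomial.map (τ : ℂ →+* ℂ) F) = F := by
    intro F
    rw [MvPolynomial.map_map]
    have : (τ.symm : ℂ →+* ℂ).comp (τ : ℂ →+* ℂ) = RingHom.id ℂ := by
      ext x; simp
    rw [this, MvPolynomial.map_id]
  have hinv' : ∀ F : R2, MvPolynomial.map (τ : ℂ →+* ℂ) (MvPolynomial.map (τ.symm : ℂ →+* ℂ) F) = F := by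
    intro F
    rw [MvPolynomial.map_map]
    have : (τ : ℂ →+* ℂ).comp (τ.symm : ℂ →+* ℂ) = RingHom.id ℂ := by
      ext x; simp
    rw [this, MvPolynomial.map_id]
  let j : HH e p m ≃+ HH e p (fun i => m (σ.symm i)) :=
    { toFun := fun F => ⟨MvPolynomial.map (τ : ℂ →+* ℂ) F, map_mem_HH hτ' F.2⟩
      invFun := fun F => ⟨MvPolynomial.map (τ.symm : ℂ →+* ℂ) F, by
        have h1 := map_mem_HH (σ := σ.symm) hτs F.2
        simpa using h1⟩
      left_inv := fun F => Subtype.ext (hinv F)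
      right_inv := fun F => Subtype.ext (hinv' F)
      map_add' := fun F G => Subtype.ext (map_add _ _ _) }
  have h1 := rank_eq_of_equiv_equiv (R := ℂ) (R' := ℂ) τ j τ.bijective (by
    intro c F
    apply Subtype.ext
    show MvPolynomial.map (τ : ℂ →+* ℂ) (c • (F : R2)) = τ c • MvPolynomial.map (τ : ℂ →+* ℂ) (F : R2)
    rw [MvPolynomial.smul_eq_C_mul, MvPolynomial.smul_eq_C_mul, map_mul, map_C]
    rfl)
  rw [hh, hh, Module.finrank, Module.finrank, h1]

end Pool.Agent.helper9.Nag
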