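import Mathlib

/-! Field automorphisms of `ℂ` permuting algebraically independent numbers. -/

set_option autoImplicit false

namespace Pool.Agent.helper9.Nag

theorem exists_auto {ι : Type} (v : ι → ℂ) (hv : AlgebraicIndependent ℚ v)
    (σ : Equiv.Perm ι) : ∃ τ : ℂ ≃+* ℂ, ∀ i, τ (v i) = v (σ i) := by
  classical
  obtain ⟨s, hs, hsb⟩ := exists_isTranscendenceBasis_superset (R := ℚ) (A := ℂ)
    (s := Set.range v) hv.to_subtype_range
  let f : ι ↪ s := ⟨fun i => ⟨v i, hs ⟨i, rfl⟩⟩, fun i j h => hv.injective (congrArg Subtype.val h)⟩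
  let π : Equiv.Perm s := σ.viaEmbedding f
  have hπ : ∀ i, π (f i) = f (σ i) := fun i => Equiv.Perm.viaEmbedding_apply σ f i
  let w : s → ℂ := Subtype.val
  have hw : IsTranscendenceBasis ℚ w := hsb
  have hcl : IsAlgClosure (Algebra.adjoin ℚ (Set.range w)) ℂ :=
    IsAlgClosed.isAlgClosure_of_transcendence_basis w hw
  let E : Algebra.adjoin ℚ (Set.range w) ≃ₐ[ℚ] Algebra.adjoin ℚ (Set.range w) :=
    (hw.1.aevalEquiv.symm.trans (MvPolynomial.renameEquiv ℚ π)).trans hw.1.aevalEquiv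
  have hE : ∀ x : s, (E (hw.1.aevalEquiv (MvPolynomial.X x)) : ℂ) = w (π x) := by
    intro x
    show ((hw.1.aevalEquiv (MvPolynomial.renameEquiv ℚ π (hw.1.aevalEquiv.symm
      (hw.1.aevalEquiv (MvPolynomial.X x)))) : Algebra.adjoin ℚ (Set.range w)) : ℂ) = w (π x)
    rw [AlgEquiv.symm_apply_apply, MvPolynomial.renameEquiv_apply, MvPolynomial.rename_X,
      hw.1.aevalEquiv_apply_coe, MvPolynomial.aeval_X]
  let τ : ℂ ≃+* ℂ := IsAlgClosure.equivOfEquiv ℂ ℂ E.toRingEquiv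
  refine ⟨τ, fun i => ?_⟩
  have h1 : v i = algebraMap (Algebra.adjoin ℚ (Set.range w)) ℂ
      (hw.1.aevalEquiv (MvPolynomial.X (f i))) := by
    show v i = ((hw.1.aevalEquiv (MvPolynomial.X (f i)) : Algebra.adjoin ℚ (Set.range w)) : ℂ)
    rw [hw.1.aevalEquiv_apply_coe, MvPolynomial.aeval_X]
    rfl
  rw [h1]
  show IsAlgClosure.equivOfEquiv ℂ ℂ E.toRingEquiv (algebraMap _ _ _) = _
  rw [IsAlgClosure.equivOfEquiv_algebraMap]
  have h2 := hE (f i)
  rw [hπ] at h2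
  exact h2

end Pool.Agent.helper9.Nag
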