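import Pool.Agent.helper5.NBSLocal

/-! Subspaces of the space of binary forms. -/

set_option autoImplicit false

namespace Pool.Agent.helper9.Nag

open MvPolynomial Pool.Agent.helper5.NBS

/-- binary forms of degree `k` -/
noncomputable abbrev Hm (k : ℕ) : Submodule ℂ R2 := homogeneousSubmodule (Fin 2) ℂ k

/-- the exponent `(k - j, j)` -/
noncomputable def mn (k j : ℕ) : Fin 2 →₀ ℕ := Finsupp.single 0 (k - j) + Finsupp.single 1 j

lemma mn_zero (k j : ℕ) : mn k j 0 = k - j := by simp [mn]
lemma mn_one (k j : ℕ) : mn k j 1 = j := by simp [mn]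

lemma ext2 {m n : Fin 2 →₀ ℕ} (h0 : m 0 = n 0) (h1 : m 1 = n 1) : m = n := by
  ext i
  fin_cases i
  · exact h0
  · exact h1

lemma eq_mn {k : ℕ} {n : Fin 2 →₀ ℕ} (h : n.degree = k) : n = mn k (n 1) := by
  rw [degree_eq] at h
  apply ext2
  · rw [mn_zero]; omega
  · rw [mn_one]

lemma degree_mn {k j : ℕ} (h : j ≤ k) : (mn k j).degree = k := by
  rw [degree_eq, mn_zero, mn_one]; omega

/-- exponents of degree `k` -/
noncomputable def degEquiv (k : ℕ) : {n : Fin 2 →₀ ℕ | n.degree = k} ≃ Fin (k + 1) where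
  toFun n := ⟨n.1 1, by have := n.2; rw [Set.mem_ofPred_eq, degree_eq] at this; omega⟩
  invFun j := ⟨mn k j, degree_mn (by omega)⟩
  left_inv n := by
    ext1
    exact (eq_mn n.2).symm
  right_inv j := by
    ext1
    exact mn_one _ _

lemma Hm_eq (k : ℕ) : Hm k = restrictSupport ℂ {n : Fin 2 →₀ ℕ | n.degree = k} := by
  rw [Hm, homogeneousSubmodule_eq_finsupp_supported]
  rfl

lemma finite_Hm (k : ℕ) : Module.Finite ℂ (Hm k) := by
  rw [Hm_eq]
  have : Finite {n : Fin 2 →₀ ℕ | n.degree = k} := Finite.of_equiv _ (degEquiv k).symm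
  exact Module.Finite.of_basis (basisRestrictSupport ℂ {n : Fin 2 →₀ ℕ | n.degree = k})

lemma finrank_Hm (k : ℕ) : Module.finrank ℂ (Hm k) = k + 1 := by
  rw [Hm_eq]
  have : Finite {n : Fin 2 →₀ ℕ | n.degree = k} := Finite.of_equiv _ (degEquiv k).symm
  rw [Module.finrank_eq_nat_card_basis (basisRestrictSupport ℂ {n : Fin 2 →₀ ℕ | n.degree = k}),
    Nat.card_congr (degEquiv k), Nat.card_eq_fintype_card, Fintype.card_fin]

lemma form_eq_sum {k : ℕ} {θ : R2} (h : θ ∈ Hm k) :
    θ = ∑ j ∈ Finset.range (k + 1), coeff (mn k j) θ • monomial (mn k j) (1 : ℂ) := by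
  classical
  ext n
  rw [coeff_sum]
  simp_rw [coeff_smul, coeff_monomial, smul_eq_mul]
  by_cases hn : n.degree = k
  · rw [Finset.sum_eq_single (n 1)]
    · rw [← eq_mn hn, if_pos rfl, mul_one]
    · intro j _ hj
      rw [if_neg, mul_zero]
      intro h1
      apply hj
      rw [← h1, mn_one]
    · intro h1
      exfalso
      apply h1
      rw [degree_eq] at hn
      rw [Finset.mem_range]
      omega
  · rw [IsHomogeneous.coeff_eq_zero ((mem_homogeneousSubmodule k θ).mp h) hn, eq_comm]
    apply Finset.sum_eq_zero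
    intro j hj
    rw [if_neg, mul_zero]
    intro h1
    apply hn
    rw [← h1]
    rw [Finset.mem_range] at hj
    exact degree_mn (by omega)

/-- derivative in the direction `v` -/
noncomputable def pdv (v : Fin 2 → ℂ) : R2 →ₗ[ℂ] R2 :=
  v 0 • (pderiv (R := ℂ) (0 : Fin 2)).toLinearMap + v 1 • (pderiv (R := ℂ) (1 : Fin 2)).toLinearMap

lemma pdv_apply (v : Fin 2 → ℂ) (θ : R2) : pdv v θ = v 0 • pderiv 0 θ + v 1 • pderiv 1 θ := rfl

lemma pderiv_mem_Hm {k : ℕ} {θ : R2} (h : θ ∈ Hm (k + 1)) (i : Fin 2) : pderiv i θ ∈ Hm k := by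
  rw [mem_homogeneousSubmodule] at h ⊢
  exact h.pderiv

lemma coeff_pderiv_mn {k j : ℕ} (hj : j ≤ k) (θ : R2) :
    coeff (mn k j) (pderiv 0 θ) = coeff (mn (k + 1) j) θ * ((k - j : ℕ) + 1) ∧
    coeff (mn k j) (pderiv 1 θ) = coeff (mn (k + 1) (j + 1)) θ * ((j : ℕ) + 1) := by
  constructor
  · rw [coeff_pderiv, mn_zero]
    congr 2
    apply ext2
    · rw [Finsupp.add_apply, mn_zero, mn_zero, Finsupp.single_eq_same]; omega
    · rw [Finsupp.add_apply, mn_one, mn_one, Finsupp.single_eq_of_ne (by decide), add_zero]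
  · rw [coeff_pderiv, mn_one]
    congr 2
    apply ext2
    · rw [Finsupp.add_apply, mn_zero, mn_zero, Finsupp.single_eq_of_ne (by decide)]; omega
    · rw [Finsupp.add_apply, mn_one, mn_one, Finsupp.single_eq_same]

/-- forms killed by a directional derivative are powers of a linear form -/
lemma coeff_of_pdv {k : ℕ} {θ : R2} (t : ℂ) (h : pdv ![t, -1] θ = 0) (j : ℕ)
    (hj : j ≤ k + 1) :
    coeff (mn (k + 1) j) θ = (k + 1).choose j * t ^ j * coeff (mn (k + 1) 0) θ := by
  induction j with
  | zero => simp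
  | succ j ih =>
    have h1 := congrArg (coeff (mn k j)) h
    obtain ⟨e0, e1⟩ := coeff_pderiv_mn (show j ≤ k by omega) θ
    rw [pdv_apply, coeff_add, coeff_smul, coeff_smul, coeff_zero, e0, e1, ih (by omega)] at h1
    simp only [Matrix.cons_val_zero, Matrix.cons_val_one, smul_eq_mul] at h1
    have hj1 : ((j : ℂ) + 1) ≠ 0 := by exact_mod_cast Nat.succ_ne_zero j
    have hc : ((k + 1).choose (j + 1) : ℂ) * (j + 1) = (k + 1).choose j * ((k - j : ℕ) + 1) := by
      have := Nat.choose_succ_right_eq (k + 1) j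
      have h2 : k + 1 - j = k - j + 1 := by omega
      rw [h2] at this
      exact_mod_cast this
    apply mul_right_cancel₀ hj1
    linear_combination (-1) * h1 - t ^ (j + 1) * coeff (mn (k + 1) 0) θ * hc

lemma exists_pdv_inj {k : ℕ} {U : Submodule ℂ R2} (hU : U ≤ Hm (k + 1)) (hne : U ≠ Hm (k + 1)) :
    ∃ v : Fin 2 → ℂ, ∀ θ ∈ U, pdv v θ = 0 → θ = 0 := by
  classical
  by_contra hcon
  push Not at hcon
  obtain ⟨x, hx, hxU⟩ := SetLike.exists_of_lt (lt_of_le_of_ne hU hne)
  obtain ⟨f, hf, hUf⟩ := Submodule.exists_le_ker_of_notMem hxU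
  apply hf
  -- the coefficients of `f`
  have key : ∀ t : ℂ, ∑ j ∈ Finset.range (k + 2),
      ((k + 1).choose j * f (monomial (mn (k + 1) j) 1)) * t ^ j = 0 := by
    intro t
    obtain ⟨θ, hθU, hθ, hθ0⟩ := hcon ![t, -1]
    have h1 : f θ = 0 := hUf hθU
    have hs := form_eq_sum (hU hθU)
    have ha : coeff (mn (k + 1) 0) θ ≠ 0 := by
      intro ha
      apply hθ0
      rw [hs]
      apply Finset.sum_eq_zero
      intro j hj
      rw [Finset.mem_range] at hj
      rw [coeff_of_pdv t hθ j (by omega), ha, mul_zero, zero_smul]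
    rw [hs, map_sum] at h1
    have h2 : ∑ j ∈ Finset.range (k + 1 + 1), f (coeff (mn (k + 1) j) θ •
        monomial (mn (k + 1) j) (1 : ℂ)) = coeff (mn (k + 1) 0) θ * ∑ j ∈ Finset.range (k + 2),
      ((k + 1).choose j * f (monomial (mn (k + 1) j) 1)) * t ^ j := by
      rw [Finset.mul_sum]
      apply Finset.sum_congr rfl
      intro j hj
      rw [Finset.mem_range] at hj
      rw [map_smul, coeff_of_pdv t hθ j (by omega), smul_eq_mul]
      ring
    rw [h2] at h1
    exact (mul_eq_zero.mp h1).resolve_left ha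
  let P : Polynomial ℂ := ∑ j ∈ Finset.range (k + 2),
    Polynomial.C ((k + 1).choose j * f (monomial (mn (k + 1) j) 1)) * Polynomial.X ^ j
  have hP : P = 0 := by
    apply Polynomial.funext
    intro t
    rw [Polynomial.eval_zero, ← key t, Polynomial.eval_finsetSum]
    apply Finset.sum_congr rfl
    intro j _
    rw [Polynomial.eval_mul, Polynomial.eval_C, Polynomial.eval_pow, Polynomial.eval_X]
  have hc : ∀ j ≤ k + 1, f (monomial (mn (k + 1) j) 1) = 0 := by
    intro j hj
    have h1 := congrArg (fun Q => Polynomial.coeff Q j) hP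
    simp only [P, Polynomial.finsetSum_coeff, Polynomial.coeff_C_mul_X_pow,
      Polynomial.coeff_zero] at h1
    rw [Finset.sum_ite_eq, if_pos (Finset.mem_range.mpr (by omega))] at h1
    have h2 : ((k + 1).choose j : ℂ) ≠ 0 := by
      exact_mod_cast (Nat.choose_pos hj).ne'
    exact (mul_eq_zero.mp h1).resolve_left h2
  rw [form_eq_sum hx, map_sum]
  apply Finset.sum_eq_zero
  intro j hj
  rw [Finset.mem_range] at hj
  rw [map_smul, hc j (by omega), smul_zero]

/-- the derivatives of a space of forms -/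
lemma growth {k : ℕ} {U W : Submodule ℂ R2} (hU : U ≤ Hm (k + 1)) (hW : W ≤ Hm k)
    (h : ∀ θ ∈ U, ∀ i, pderiv i θ ∈ W) :
    min (k + 1) (Module.finrank ℂ U) ≤ Module.finrank ℂ W ∧ (U = Hm (k + 1) → W = Hm k) := by
  have hfW : Module.Finite ℂ W := by
    have := finite_Hm k
    exact Submodule.finiteDimensional_of_le hW
  have hfull : U = Hm (k + 1) → W = Hm k := by
    rintro rfl
    apply le_antisymm hW
    intro θ hθ
    rw [form_eq_sum hθ]
    apply Submodule.sum_mem
    intro j hj
    rw [Finset.mem_range] at hj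
    apply Submodule.smul_mem
    have h1 : (monomial (mn (k + 1) j) (1 : ℂ)) ∈ Hm (k + 1) := by
      rw [mem_homogeneousSubmodule]
      exact isHomogeneous_monomial _ (degree_mn (by omega))
    have h2 := h _ h1 0
    rw [pderiv_monomial, mn_zero, one_mul] at h2
    have h3 : mn (k + 1) j - Finsupp.single 0 1 = mn k j := by
      apply ext2
      · rw [Finsupp.tsub_apply, mn_zero, mn_zero, Finsupp.single_eq_same]; omega
      · rw [Finsupp.tsub_apply, mn_one, mn_one, Finsupp.single_eq_of_ne (by decide)]; omega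
    rw [h3] at h2
    have h4 : ((k + 1 - j : ℕ) : ℂ) ≠ 0 := by
      exact_mod_cast (show k + 1 - j ≠ 0 by omega)
    have h5 := W.smul_mem ((k + 1 - j : ℕ) : ℂ)⁻¹ h2
    rwa [smul_monomial, smul_eq_mul, inv_mul_cancel₀ h4] at h5
  refine ⟨?_, hfull⟩
  by_cases hne : U = Hm (k + 1)
  · rw [hfull hne, finrank_Hm]
    exact min_le_left _ _
  · obtain ⟨v, hv⟩ := exists_pdv_inj hU hne
    refine le_trans (min_le_right _ _) ?_
    have hle : U.map (pdv v) ≤ W := by
      rintro _ ⟨θ, hθ, rfl⟩
      rw [pdv_apply]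
      exact W.add_mem (W.smul_mem _ (h θ hθ 0)) (W.smul_mem _ (h θ hθ 1))
    have hinj : Function.Injective ((pdv v).domRestrict U) := by
      rw [← LinearMap.ker_eq_bot, LinearMap.ker_eq_bot']
      rintro ⟨θ, hθ⟩ h0
      ext1
      exact hv θ hθ h0
    have h1 : Module.finrank ℂ U ≤ Module.finrank ℂ (U.map (pdv v)) := by
      have hmap : U.map (pdv v) = LinearMap.range ((pdv v).domRestrict U) := by
        rw [LinearMap.range_domRestrict]
      rw [hmap, LinearMap.finrank_range_of_inj hinj]
    exact le_trans h1 (Submodule.finrank_mono hle)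

/-- invariant subspaces -/
lemma gl2 {k : ℕ} {U : Submodule ℂ R2} (hU : U ≤ Hm k) (hne : U ≠ ⊥)
    (h01 : ∀ θ ∈ U, X 0 * pderiv 1 θ ∈ U) (h10 : ∀ θ ∈ U, X 1 * pderiv 0 θ ∈ U) : U = Hm k := by
  classical
  have step1 : ∀ d : ℕ, ∀ θ ∈ U, θ ≠ 0 → degreeOf 1 θ ≤ d → monomial (mn k 0) (1 : ℂ) ∈ U := by
    intro d
    induction d with
    | zero =>
      intro θ hθ h0 hd
      have hs := form_eq_sum (hU hθ)
      have h1 : ∀ j, 1 ≤ j → coeff (mn k j) θ = 0 := by
        intro j hj
        by_contra hc
        have h2 : mn k j ∈ θ.support := mem_support_iff.mpr hc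
        have h3 := monomial_le_degreeOf 1 h2
        rw [mn_one] at h3
        omega
      have h2 : θ = coeff (mn k 0) θ • monomial (mn k 0) (1 : ℂ) := by
        conv_lhs => rw [hs]
        apply Finset.sum_eq_single 0
        · intro j _ hj
          rw [h1 j (by omega), zero_smul]
        · intro h3
          exact absurd (Finset.mem_range.mpr (Nat.succ_pos k)) h3
      have hc : coeff (mn k 0) θ ≠ 0 := by
        intro hc
        apply h0
        rw [h2, hc, zero_smul]
      have h3 := U.smul_mem (coeff (mn k 0) θ)⁻¹ hθ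
      rw [h2, smul_smul] at h3
      have h4 : (coeff (mn k 0) θ)⁻¹ * coeff (mn k 0) θ = 1 := inv_mul_cancel₀ hc
      rw [← h2] at h3
      rwa [h4, one_smul] at h3
    | succ d ih =>
      intro θ hθ h0 hd
      rcases Nat.lt_or_ge d (degreeOf 1 θ) with hlt | hge
      · have hdeg : degreeOf 1 θ = d + 1 := by omega
        refine ih _ (h01 θ hθ) ?_ ?_
        · -- nonzero
          apply mul_ne_zero (X_ne_zero 0)
          intro hp
          obtain ⟨n, hn, hn1⟩ : ∃ n ∈ θ.support, n 1 = d + 1 := by
            rw [degreeOf_eq_sup] at hdeg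
            obtain ⟨n, hn, h1⟩ := Finset.exists_mem_eq_sup θ.support
              (support_nonempty.mpr h0) (fun n : Fin 2 →₀ ℕ => n 1)
            exact ⟨n, hn, by rw [← h1]; exact hdeg⟩
          have h1 := congrArg (coeff (n - Finsupp.single 1 1)) hp
          rw [coeff_pderiv, coeff_zero, Finsupp.tsub_apply, Finsupp.single_eq_same] at h1
          have h2 : n - Finsupp.single 1 1 + Finsupp.single 1 1 = n := by
            apply ext2
            · rw [Finsupp.add_apply, Finsupp.tsub_apply, Finsupp.single_eq_of_ne (by decide)]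
              omega
            · rw [Finsupp.add_apply, Finsupp.tsub_apply, Finsupp.single_eq_same]
              omega
          rw [h2, hn1] at h1
          rcases mul_eq_zero.mp h1 with h3 | h3
          · exact (mem_support_iff.mp hn) h3
          · have h4 : ((d + 1 - 1 : ℕ) : ℂ) + 1 ≠ 0 := by
              exact_mod_cast Nat.succ_ne_zero (d + 1 - 1)
            exact h4 h3
        · -- degree
          rw [degreeOf_le_iff]
          intro n hn
          rw [mem_support_iff] at hn
          by_contra hcon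
          push Not at hcon
          apply hn
          rw [coeff_X_mul']
          split_ifs with hmem
          · rw [coeff_pderiv]
            have h1 : coeff (n - Finsupp.single 0 1 + Finsupp.single 1 1) θ = 0 := by
              by_contra hc
              have h2 := monomial_le_degreeOf 1 (mem_support_iff.mpr hc)
              rw [Finsupp.add_apply, Finsupp.tsub_apply, Finsupp.single_eq_same,
                Finsupp.single_eq_of_ne (by decide)] at h2
              omega
            rw [h1, zero_mul]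
          · rfl
      · exact ih θ hθ h0 hge
  obtain ⟨θ, hθ, h0⟩ := Submodule.exists_mem_ne_zero_of_ne_bot hne
  have h1 := step1 _ θ hθ h0 le_rfl
  have step2 : ∀ j ≤ k, monomial (mn k j) (1 : ℂ) ∈ U := by
    intro j
    induction j with
    | zero => intro _; exact h1
    | succ j ih =>
      intro hj
      have h2 := h10 _ (ih (by omega))
      rw [pderiv_monomial, mn_zero, one_mul] at h2
      have h3 : (X 1 * monomial (mn k j - Finsupp.single 0 1) ((k - j : ℕ) : ℂ) : R2) =
          monomial (mn k (j + 1)) ((k - j : ℕ) : ℂ) := by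
        have h6 : Finsupp.single 1 1 + (mn k j - Finsupp.single 0 1) = mn k (j + 1) := ?_
        · rw [X, monomial_mul, one_mul, h6]
        apply ext2
        · rw [Finsupp.add_apply, Finsupp.tsub_apply, mn_zero, mn_zero, Finsupp.single_eq_same,
            Finsupp.single_eq_of_ne (by decide)]
          omega
        · rw [Finsupp.add_apply, Finsupp.tsub_apply, mn_one, mn_one, Finsupp.single_eq_same,
            Finsupp.single_eq_of_ne (by decide)]
          omega
      rw [h3] at h2
      have h4 : ((k - j : ℕ) : ℂ) ≠ 0 := by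
        exact_mod_cast (show k - j ≠ 0 by omega)
      have h5 := U.smul_mem ((k - j : ℕ) : ℂ)⁻¹ h2
      rwa [smul_monomial, smul_eq_mul, inv_mul_cancel₀ h4] at h5
  apply le_antisymm hU
  intro η hη
  rw [form_eq_sum hη]
  apply Submodule.sum_mem
  intro j hj
  rw [Finset.mem_range] at hj
  exact U.smul_mem _ (step2 j (by omega))

end Pool.Agent.helper9.Nag
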