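import Mathlib

/-! Derivations of `ℂ`. -/

set_option autoImplicit false

namespace Pool.Agent.helper9.Nag

open TrivSqZeroExt

section

variable {K : Type} [Field K]

/-- the derivation attached to a ring homomorphism to the dual numbers lifting the identity -/
noncomputable def derivOfHom (Ψ : K →+* TrivSqZeroExt K K) (h : ∀ z, (Ψ z).fst = z) :
    Derivation ℤ K K where
  toFun z := (Ψ z).snd
  map_add' a b := by rw [map_add, snd_add]
  map_smul' n a := by
    rw [zsmul_eq_mul, map_mul, snd_mul, map_intCast]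
    simp [h]
  map_one_eq_zero' := by
    show (Ψ 1).snd = 0
    rw [map_one, snd_one]
  leibniz' a b := by
    show (Ψ (a * b)).snd = a • (Ψ b).snd + b • (Ψ a).snd
    rw [map_mul, snd_mul, h, h]
    simp [mul_comm]

lemma derivOfHom_apply (Ψ : K →+* TrivSqZeroExt K K) (h : ∀ z, (Ψ z).fst = z) (z : K) :
    derivOfHom Ψ h z = (Ψ z).snd := rfl

end

open scoped IntermediateField.algebraAdjoinAdjoin in
/-- Derivations of `ℂ` have arbitrary values on algebraically independent numbers. -/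
theorem exists_derivation {ι : Type} (v : ι → ℂ) (hv : AlgebraicIndependent ℚ v) (w : ι → ℂ) :
    ∃ δ : Derivation ℤ ℂ ℂ, ∀ i, δ (v i) = w i := by
  classical
  obtain ⟨s, hs, hsb⟩ := exists_isTranscendenceBasis_superset (R := ℚ) (A := ℂ)
    (s := Set.range v) hv.to_subtype_range
  have hinj := hv.injective
  -- prescribed values on the basis
  let w' : s → ℂ := fun x => if h : ∃ i, v i = x then w h.choose else 0
  have hw' : ∀ i (h : v i ∈ s), w' ⟨v i, h⟩ = w i := by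
    intro i h
    have h1 : ∃ j, v j = ((⟨v i, h⟩ : s) : ℂ) := ⟨i, rfl⟩
    show (if h : ∃ j, v j = ((⟨v i, _⟩ : s) : ℂ) then w h.choose else 0) = w i
    rw [dif_pos h1]
    congr 1
    exact hinj h1.choose_spec
  have hind : AlgebraicIndependent ℚ ((↑) : s → ℂ) := hsb.1
  let R0 := Algebra.adjoin ℚ (Set.range ((↑) : s → ℂ))
  let E := IntermediateField.adjoin ℚ (Set.range ((↑) : s → ℂ))
  have halg : Algebra.IsAlgebraic E ℂ := hsb.isAlgebraic_field
  have hsep : Algebra.IsSeparable E ℂ := inferInstance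
  have e1 : Algebra.FormallyEtale R0 E := .of_isLocalization (nonZeroDivisors _)
  have e2 : Algebra.FormallyEtale E ℂ := Algebra.FormallyEtale.of_isSeparable _ ℂ
  have e3 : Algebra.FormallyEtale R0 ℂ := Algebra.FormallyEtale.comp R0 E ℂ
  -- the algebra structure on the dual numbers
  let ψ : R0 →ₐ[ℚ] TrivSqZeroExt ℂ ℂ :=
    (MvPolynomial.aeval (fun i : s => (inl (i : ℂ) + inr (w' i) : TrivSqZeroExt ℂ ℂ))).comp
      hind.aevalEquiv.symm.toAlgHom
  have hψfst : ∀ r : R0, (ψ r).fst = (r : ℂ) := by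
    intro r
    obtain ⟨p, rfl⟩ := hind.aevalEquiv.surjective r
    have h1 : ψ (hind.aevalEquiv p) =
        MvPolynomial.aeval (fun i : s => (inl (i : ℂ) + inr (w' i) : TrivSqZeroExt ℂ ℂ)) p := by
      show MvPolynomial.aeval _ (hind.aevalEquiv.symm (hind.aevalEquiv p)) = _
      rw [AlgEquiv.symm_apply_apply]
    rw [h1]
    have h3 : ∀ z : TrivSqZeroExt ℂ ℂ, fstHom ℚ ℂ ℂ z = z.fst := fun z => rfl
    rw [← h3, MvPolynomial.comp_aeval_apply, hind.aevalEquiv_apply_coe]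
    congr 2
    funext i
    simp
  have hψgen : ∀ i : s, ∀ h : (i : ℂ) ∈ R0, ψ ⟨i, h⟩ = inl (i : ℂ) + inr (w' i) := by
    intro i h
    have h1 : (⟨(i : ℂ), h⟩ : R0) = hind.aevalEquiv (MvPolynomial.X i) := by
      apply Subtype.ext
      rw [hind.aevalEquiv_apply_coe, MvPolynomial.aeval_X]
    rw [h1]
    show MvPolynomial.aeval _ (hind.aevalEquiv.symm (hind.aevalEquiv _)) = _
    rw [AlgEquiv.symm_apply_apply, MvPolynomial.aeval_X]
  letI a1 : Algebra R0 (TrivSqZeroExt ℂ ℂ) := ψ.toRingHom.toAlgebra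
  let g : TrivSqZeroExt ℂ ℂ →ₐ[R0] ℂ :=
    { (fstHom ℚ ℂ ℂ).toRingHom with
      commutes' := fun r => hψfst r }
  have hg : Function.Surjective g := fun z => ⟨inl z, rfl⟩
  have hg' : IsNilpotent (RingHom.ker (g : TrivSqZeroExt ℂ ℂ →+* ℂ)) := by
    refine ⟨2, ?_⟩
    rw [show (2 : ℕ) = 1 + 1 from rfl, Submodule.pow_succ, Submodule.pow_one,
      Ideal.zero_eq_bot, eq_bot_iff, Ideal.mul_le]
    intro a ha b hb
    rw [RingHom.mem_ker] at ha hb
    have ha' : a.fst = 0 := ha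
    have hb' : b.fst = 0 := hb
    rw [Ideal.mem_bot]
    apply TrivSqZeroExt.ext
    · rw [fst_mul, ha', zero_mul, fst_zero]
    · rw [snd_mul, ha', hb', snd_zero]
      simp
  let Ψ : ℂ →ₐ[R0] TrivSqZeroExt ℂ ℂ :=
    Algebra.FormallySmooth.liftOfSurjective (AlgHom.id R0 ℂ) g hg hg'
  have hΨ : ∀ z, (Ψ z).fst = z := fun z =>
    Algebra.FormallySmooth.liftOfSurjective_apply (AlgHom.id R0 ℂ) g hg hg' z
  refine ⟨derivOfHom Ψ.toRingHom hΨ, fun i => ?_⟩
  have hmem : v i ∈ s := hs ⟨i, rfl⟩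
  have hmemR : v i ∈ R0 := Algebra.subset_adjoin ⟨⟨v i, hmem⟩, rfl⟩
  have h1 : Ψ (v i) = ψ ⟨v i, hmemR⟩ := Ψ.commutes (⟨v i, hmemR⟩ : R0)
  rw [derivOfHom_apply]
  show (Ψ (v i)).snd = w i
  rw [h1, hψgen ⟨v i, hmem⟩ hmemR, snd_add, snd_inl, snd_inr, zero_add, hw']

end Pool.Agent.helper9.Nag
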