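import Pool.Agent.helper5.NBSLocal
import Pool.Agent.helper9.Nag.Der

/-! Coefficientwise derivations of polynomials in two variables. -/

set_option autoImplicit false

namespace Pool.Agent.helper9.Nag

open MvPolynomial Pool.Agent.helper5.NBS

section General

variable {R : Type} [CommRing R] (D : Derivation ℤ R R) (I : Ideal R)

lemma deriv_mem_pow (h : ∀ x ∈ I, D x ∈ I) (m : ℕ) : ∀ x ∈ I ^ m, D x ∈ I ^ m := by
  induction m with
  | zero => intro x _; rw [pow_zero, Ideal.one_eq_top]; exact Submodule.mem_top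
  | succ m ih =>
    intro x hx
    rw [pow_succ] at hx
    induction hx using Submodule.mul_induction_on' with
    | mem_mul_mem a ha b hb =>
      rw [D.leibniz, smul_eq_mul, smul_eq_mul, pow_succ]
      refine add_mem (Ideal.mul_mem_mul ha (h b hb)) ?_
      rw [mul_comm b]
      exact Ideal.mul_mem_mul (ih a ha) hb
    | add a _ b _ ha hb => rw [map_add]; exact add_mem ha hb

lemma deriv_mem_pow_pred (m : ℕ) : ∀ x ∈ I ^ (m + 1), D x ∈ I ^ m := by
  induction m with
  | zero => intro x _; rw [pow_zero, Ideal.one_eq_top]; exact Submodule.mem_top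
  | succ m ih =>
    intro x hx
    rw [pow_succ] at hx
    induction hx using Submodule.mul_induction_on' with
    | mem_mul_mem a ha b hb =>
      rw [D.leibniz, smul_eq_mul, smul_eq_mul]
      refine add_mem (Ideal.mul_mem_right _ _ ha) ?_
      rw [mul_comm b, pow_succ]
      exact Ideal.mul_mem_mul (ih a ha) hb
    | add a _ b _ ha hb => rw [map_add]; exact add_mem ha hb

end General

/-- apply `δ` to the coefficients -/
noncomputable def cD (δ : Derivation ℤ ℂ ℂ) (F : R2) : R2 :=
  ∑ n ∈ F.support, monomial n (δ (coeff n F))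

variable (δ : Derivation ℤ ℂ ℂ)

lemma coeff_cD (F : R2) (n : Fin 2 →₀ ℕ) : coeff n (cD δ F) = δ (coeff n F) := by
  classical
  rw [cD, coeff_sum]
  simp_rw [coeff_monomial]
  rw [Finset.sum_ite_eq']
  split_ifs with h
  · rfl
  · rw [notMem_support_iff.mp h, map_zero]

lemma cD_add (F G : R2) : cD δ (F + G) = cD δ F + cD δ G := by
  ext n
  rw [coeff_add, coeff_cD, coeff_cD, coeff_cD, coeff_add, map_add]

lemma cD_monomial (n : Fin 2 →₀ ℕ) (c : ℂ) : cD δ (monomial n c) = monomial n (δ c) := by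
  classical
  ext m
  rw [coeff_cD, coeff_monomial, coeff_monomial]
  split_ifs
  · rfl
  · rw [map_zero]

lemma cD_mul (F G : R2) : cD δ (F * G) = F * cD δ G + G * cD δ F := by
  induction F using MvPolynomial.induction_on' with
  | add F F' hF hF' =>
    rw [add_mul, cD_add, hF, hF', cD_add]
    ring
  | monomial a c =>
    induction G using MvPolynomial.induction_on' with
    | add G G' hG hG' =>
      rw [mul_add, cD_add, hG, hG', cD_add]
      ring
    | monomial b d =>
      rw [monomial_mul, cD_monomial, cD_monomial, cD_monomial, monomial_mul, monomial_mul,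
        add_comm b a, ← map_add, δ.leibniz]
      rfl

/-- `cD` as a derivation -/
noncomputable def cDer : Derivation ℤ R2 R2 where
  toFun := cD δ
  map_add' := cD_add δ
  map_smul' n F := by
    show cD δ (n • F) = n • cD δ F
    have h : ∀ F, (AddMonoidHom.mk' (cD δ) (cD_add δ)) F = cD δ F := fun F => rfl
    rw [← h, ← h, map_zsmul]
  map_one_eq_zero' := by
    show cD δ 1 = 0
    rw [show (1 : R2) = monomial 0 1 from rfl, cD_monomial, δ.map_one_eq_zero, map_zero]
  leibniz' F G := cD_mul δ F G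

lemma cDer_apply (F : R2) : cDer δ F = cD δ F := rfl

lemma cD_C (c : ℂ) : cD δ (C c) = C (δ c) := cD_monomial δ 0 c

lemma cD_X (i : Fin 2) : cD δ (X i) = 0 := by
  rw [X, cD_monomial, δ.map_one_eq_zero, map_zero]

lemma cD_sub (F G : R2) : cD δ (F - G) = cD δ F - cD δ G := map_sub (cDer δ) F G

lemma cD_zero : cD δ 0 = 0 := map_zero (cDer δ)

lemma support_cD (F : R2) : (cD δ F).support ⊆ F.support := by
  intro n hn
  rw [mem_support_iff] at hn ⊢
  intro h
  apply hn
  rw [coeff_cD, h, map_zero]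

lemma cD_pderiv (F : R2) (i : Fin 2) : cD δ (pderiv i F) = pderiv i (cD δ F) := by
  induction F using MvPolynomial.induction_on' with
  | add F G hF hG => rw [map_add, cD_add, hF, hG, cD_add, map_add]
  | monomial n c =>
    rw [pderiv_monomial, cD_monomial, cD_monomial, pderiv_monomial, δ.leibniz]
    congr 1
    have h1 : δ ((n i : ℕ) : ℂ) = 0 := by
      have := δ.map_natCast (n i)
      exact this
    rw [h1, smul_zero, zero_add, smul_eq_mul, mul_comm]

/-- linearity in the derivation -/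
lemma cD_sum_smul {ι : Type} (s : Finset ι) (a : ι → ℂ) (δs : ι → Derivation ℤ ℂ ℂ) (F : R2) :
    cD (∑ i ∈ s, a i • δs i) F = ∑ i ∈ s, a i • cD (δs i) F := by
  classical
  ext n
  rw [coeff_cD, coeff_sum]
  simp_rw [coeff_smul, coeff_cD]
  induction s using Finset.induction_on with
  | empty => simp
  | insert i s hi ih =>
    rw [Finset.sum_insert hi, Finset.sum_insert hi, Derivation.add_apply, ih]
    rfl

/-- the derivation `δ` on coefficients plus a vector field -/
noncomputable def vD (ξ : Fin 2 → R2) : Derivation ℤ R2 R2 :=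
  cDer δ + ξ 0 • (pderiv (R := ℂ) (0 : Fin 2)).restrictScalars ℤ +
    ξ 1 • (pderiv (R := ℂ) (1 : Fin 2)).restrictScalars ℤ

lemma vD_apply (ξ : Fin 2 → R2) (F : R2) :
    vD δ ξ F = cD δ F + ξ 0 * pderiv 0 F + ξ 1 * pderiv 1 F := rfl

lemma vD_X (ξ : Fin 2 → R2) (i : Fin 2) : vD δ ξ (X i) = ξ i := by
  rw [vD_apply, cD_X, pderiv_X, pderiv_X]
  fin_cases i <;> simp

lemma vD_C (ξ : Fin 2 → R2) (c : ℂ) : vD δ ξ (C c) = C (δ c) := by
  rw [vD_apply, cD_C, pderiv_C, pderiv_C, mul_zero, mul_zero, add_zero, add_zero]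

/-- the moved point -/
lemma vD_mem (ξ : Fin 2 → R2) (p : Fin 2 → ℂ) (h : ∀ i, δ (p i) = eval p (ξ i)) {m : ℕ}
    {F : R2} (hF : F ∈ ptIdeal p ^ m) : vD δ ξ F ∈ ptIdeal p ^ m := by
  apply deriv_mem_pow (vD δ ξ) (ptIdeal p) _ m F hF
  intro x hx
  rw [ptIdeal] at hx
  induction hx using Submodule.span_induction with
  | mem x hx =>
    obtain ⟨i, rfl⟩ := hx
    show vD δ ξ (X i - C (p i)) ∈ ptIdeal p
    rw [map_sub, vD_X, vD_C, mem_ptIdeal_iff, map_sub, eval_C, h i, sub_self]
  | zero => rw [map_zero]; exact zero_mem _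
  | add a b _ _ ha hb => rw [map_add]; exact add_mem ha hb
  | smul c x hx' hx =>
    have h1 : vD δ ξ (c * x) = c * vD δ ξ x + x * vD δ ξ c := (vD δ ξ).leibniz c x
    show vD δ ξ (c * x) ∈ ptIdeal p
    rw [h1]
    refine add_mem (Ideal.mul_mem_left _ _ hx) ?_
    exact Ideal.mul_mem_right _ _ hx'

lemma cD_mem_of_kill {p : Fin 2 → ℂ} (h : ∀ i, δ (p i) = 0) {m : ℕ} {F : R2}
    (hF : F ∈ ptIdeal p ^ m) : cD δ F ∈ ptIdeal p ^ m := by
  have := vD_mem δ 0 p (fun i => by rw [h i, Pi.zero_apply, map_zero]) hF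
  rwa [vD_apply, Pi.zero_apply, Pi.zero_apply, zero_mul, zero_mul, add_zero, add_zero] at this

lemma cD_mem_pred {p : Fin 2 → ℂ} {m : ℕ} {F : R2} (hF : F ∈ ptIdeal p ^ m) :
    cD δ F ∈ ptIdeal p ^ (m - 1) := by
  cases m with
  | zero => simp
  | succ m => exact deriv_mem_pow_pred (cDer δ) (ptIdeal p) m F hF

end Pool.Agent.helper9.Nag
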