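import Pool.Agent.helper9.Nag.CD
import Pool.Agent.helper9.Nag.Bin
import Pool.Agent.helper9.Nag.Aut
import Pool.Agent.helper73.Nag.Bez

/-! Linear systems of plane curves at very general points and their leading forms. -/

set_option autoImplicit false

namespace Pool.Agent.helper9.Nag

open MvPolynomial Pool.Agent.helper5.NBS

/-- leading form of degree `k` at `p` -/
noncomputable def lam (p : Fin 2 → ℂ) (k : ℕ) : R2 →ₗ[ℂ] R2 :=
  (homogeneousComponent k) ∘ₗ (trans p).toLinearMap

lemma lam_apply (p : Fin 2 → ℂ) (k : ℕ) (F : R2) :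
    lam p k F = homogeneousComponent k (trans p F) := rfl

lemma lam_mem (p : Fin 2 → ℂ) (k : ℕ) (F : R2) : lam p k F ∈ Hm k :=
  homogeneousComponent_mem k _

lemma lam_eq_zero_iff {p : Fin 2 → ℂ} {k : ℕ} {F : R2} (hF : F ∈ ptIdeal p ^ k) :
    lam p k F = 0 ↔ F ∈ ptIdeal p ^ (k + 1) := by
  classical
  rw [mem_ptIdeal_pow] at hF ⊢
  constructor
  · intro h n hn
    rcases Nat.lt_or_ge n.degree k with h1 | h1
    · exact hF n h1
    · have h2 : n.degree = k := by omega
      have h3 := congrArg (coeff n) h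
      rwa [lam_apply, coeff_homogeneousComponent, if_pos h2, coeff_zero] at h3
  · intro h
    ext n
    rw [lam_apply, coeff_homogeneousComponent, coeff_zero]
    split_ifs with h2
    · exact h n (by omega)
    · rfl

lemma trans_pderiv (p : Fin 2 → ℂ) (i : Fin 2) (F : R2) :
    trans p (pderiv i F) = pderiv i (trans p F) := by
  induction F using MvPolynomial.induction_on with
  | C a => rw [pderiv_C, map_zero, trans_C, pderiv_C]
  | add F G hF hG => rw [map_add, map_add, hF, hG, map_add, map_add]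
  | mul_X F j hF =>
    rw [Derivation.leibniz, map_add, smul_eq_mul, smul_eq_mul, map_mul, map_mul, map_mul, hF,
      trans_X, Derivation.leibniz, smul_eq_mul, smul_eq_mul, map_add, pderiv_C, add_zero,
      pderiv_X]
    congr 2
    by_cases hij : j = i
    · subst hij
      simp
    · rw [Pi.single_eq_of_ne hij, map_zero]

lemma trans_cD {δ : Derivation ℤ ℂ ℂ} {p : Fin 2 → ℂ} (h : ∀ i, δ (p i) = 0) (F : R2) :
    trans p (cD δ F) = cD δ (trans p F) := by
  induction F using MvPolynomial.induction_on with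
  | C a => rw [cD_C, trans_C, trans_C, cD_C]
  | add F G hF hG => rw [cD_add, map_add, hF, hG, map_add, cD_add]
  | mul_X F j hF =>
    rw [cD_mul, map_add, map_mul, map_mul, map_mul, cD_mul, hF, cD_X, map_zero, trans_X, cD_add,
      cD_X, cD_C, h j, map_zero, add_zero]

lemma hc_pderiv (k : ℕ) (i : Fin 2) (F : R2) :
    homogeneousComponent k (pderiv i F) = pderiv i (homogeneousComponent (k + 1) F) := by
  classical
  ext n
  rw [coeff_homogeneousComponent, coeff_pderiv, coeff_pderiv, coeff_homogeneousComponent]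
  have h1 : (n + Finsupp.single i 1).degree = n.degree + 1 := by
    rw [map_add, Finsupp.degree_single]
  rw [h1]
  by_cases h : n.degree = k
  · rw [if_pos h, if_pos (by omega)]
  · rw [if_neg h, if_neg (by omega), zero_mul]

lemma hc_cD (δ : Derivation ℤ ℂ ℂ) (k : ℕ) (F : R2) :
    homogeneousComponent k (cD δ F) = cD δ (homogeneousComponent k F) := by
  classical
  ext n
  rw [coeff_homogeneousComponent, coeff_cD, coeff_cD, coeff_homogeneousComponent]
  split_ifs
  · rfl
  · rw [map_zero]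

lemma hc_X_mul (k : ℕ) (i : Fin 2) (F : R2) :
    homogeneousComponent (k + 1) (X i * F) = X i * homogeneousComponent k F := by
  classical
  ext n
  rw [coeff_homogeneousComponent, coeff_X_mul', coeff_X_mul', coeff_homogeneousComponent]
  by_cases hi : i ∈ n.support
  · rw [if_pos hi, if_pos hi]
    have h1 : (n - Finsupp.single i 1 + Finsupp.single i 1) = n := by
      apply tsub_add_cancel_of_le
      rw [Finsupp.single_le_iff]
      exact Nat.one_le_iff_ne_zero.mpr (Finsupp.mem_support_iff.mp hi)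
    have h2 : n.degree = (n - Finsupp.single i 1).degree + 1 := by
      conv_lhs => rw [← h1]
      rw [map_add, Finsupp.degree_single]
    rw [h2]
    by_cases h3 : (n - Finsupp.single i 1).degree = k
    · rw [if_pos h3, if_pos (by omega)]
    · rw [if_neg h3, if_neg (by omega)]
  · rw [if_neg hi, if_neg hi]
    split_ifs <;> rfl

lemma lam_pderiv (p : Fin 2 → ℂ) (k : ℕ) (i : Fin 2) (F : R2) :
    lam p k (pderiv i F) = pderiv i (lam p (k + 1) F) := by
  rw [lam_apply, lam_apply, trans_pderiv, hc_pderiv]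

lemma lam_cD {δ : Derivation ℤ ℂ ℂ} {p : Fin 2 → ℂ} (h : ∀ i, δ (p i) = 0) (k : ℕ) (F : R2) :
    lam p k (cD δ F) = cD δ (lam p k F) := by
  rw [lam_apply, lam_apply, trans_cD h, hc_cD]

lemma lam_X_mul (p : Fin 2 → ℂ) (k : ℕ) (i : Fin 2) (F : R2) :
    lam p (k + 1) ((X i - C (p i)) * F) = X i * lam p k F := by
  rw [lam_apply, lam_apply, map_mul, map_sub, trans_X, trans_C, add_sub_cancel_right, hc_X_mul]

lemma wdeg_le {e : ℕ} {F : R2} : wdeg 1 F ≤ e ↔ ∀ n : Fin 2 →₀ ℕ, e < n.degree → coeff n F = 0 := by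
  rw [wdeg, Finset.sup_le_iff]
  constructor
  · intro h n hn
    by_contra hc
    have h1 := h n (mem_support_iff.mpr hc)
    rw [degree_eq] at hn
    omega
  · intro h n hn
    by_contra hc
    refine (mem_support_iff.mp hn) (h n ?_)
    rw [degree_eq]
    omega

lemma wdeg_cD {e : ℕ} {F : R2} (δ : Derivation ℤ ℂ ℂ) (h : wdeg 1 F ≤ e) :
    wdeg 1 (cD δ F) ≤ e := by
  rw [wdeg_le] at h ⊢
  intro n hn
  rw [coeff_cD, h n hn, map_zero]

lemma wdeg_X_pderiv {e : ℕ} {F : R2} (h : wdeg 1 F ≤ e) (a b : Fin 2) (c : ℂ) :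
    wdeg 1 ((X a - C c) * pderiv b F) ≤ e := by
  classical
  rw [wdeg_le] at h ⊢
  intro n hn
  have h1 : coeff (n + Finsupp.single b 1) F = 0 := by
    apply h
    rw [map_add]
    omega
  have h0 : coeff n (pderiv b F) = 0 := by rw [coeff_pderiv, h1, zero_mul]
  rw [sub_mul, coeff_sub, coeff_C_mul, coeff_X_mul', h0, mul_zero, sub_zero]
  split_ifs with ha
  · rw [coeff_pderiv]
    have h2 : coeff (n - Finsupp.single a 1 + Finsupp.single b 1) F = 0 := by
      apply h
      have h3 : (n - Finsupp.single a 1 + Finsupp.single a 1) = n := by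
        apply tsub_add_cancel_of_le
        rw [Finsupp.single_le_iff]
        exact Nat.one_le_iff_ne_zero.mpr (Finsupp.mem_support_iff.mp ha)
      have h4 : n.degree = (n - Finsupp.single a 1).degree + 1 := by
        conv_lhs => rw [← h3]
        rw [map_add, Finsupp.degree_single]
      rw [map_add, Finsupp.degree_single]
      omega
    rw [h2, zero_mul]
  · rfl

variable {r : ℕ}

/-- polynomials of degree at most `e` with multiplicity at least `m i` at `p i` -/
noncomputable def HH (e : ℕ) (p : Fin r → Fin 2 → ℂ) (m : Fin r → ℕ) : Submodule ℂ R2 :=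
  V 1 e e ⊓ ⨅ i, (ptIdeal (p i) ^ m i).restrictScalars ℂ

lemma mem_HH {e : ℕ} {p : Fin r → Fin 2 → ℂ} {m : Fin r → ℕ} {F : R2} :
    F ∈ HH e p m ↔ wdeg 1 F ≤ e ∧ ∀ i, F ∈ ptIdeal (p i) ^ m i := by
  rw [HH, Submodule.mem_inf, Submodule.mem_iInf, mem_V]
  constructor
  · rintro ⟨⟨-, h1⟩, h2⟩
    exact ⟨h1, h2⟩
  · rintro ⟨h1, h2⟩
    exact ⟨⟨le_trans (Pool.Agent.helper73.Nag.ydeg_le_wdeg F) h1, h1⟩, h2⟩

lemma finite_HH (e : ℕ) (p : Fin r → Fin 2 → ℂ) (m : Fin r → ℕ) : Module.Finite ℂ (HH e p m) := by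
  have := finite_V 1 e e (by omega)
  exact Submodule.finiteDimensional_of_le (inf_le_left : HH e p m ≤ V 1 e e)

lemma HH_anti {e : ℕ} {p : Fin r → Fin 2 → ℂ} {m m' : Fin r → ℕ} (h : ∀ i, m' i ≤ m i) :
    HH e p m ≤ HH e p m' := by
  intro F hF
  rw [mem_HH] at hF ⊢
  exact ⟨hF.1, fun i => Ideal.pow_le_pow_right (h i) (hF.2 i)⟩

/-- the dimension -/
noncomputable def hh (e : ℕ) (p : Fin r → Fin 2 → ℂ) (m : Fin r → ℕ) : ℕ :=
  Module.finrank ℂ (HH e p m)

/-- the leading forms at `p l` -/
noncomputable def UU (e : ℕ) (p : Fin r → Fin 2 → ℂ) (m : Fin r → ℕ) (l : Fin r) :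
    Submodule ℂ R2 := (HH e p m).map (lam (p l) (m l))

lemma UU_le (e : ℕ) (p : Fin r → Fin 2 → ℂ) (m : Fin r → ℕ) (l : Fin r) :
    UU e p m l ≤ Hm (m l) := by
  rintro _ ⟨F, _, rfl⟩
  exact lam_mem _ _ _

lemma finite_UU (e : ℕ) (p : Fin r → Fin 2 → ℂ) (m : Fin r → ℕ) (l : Fin r) :
    Module.Finite ℂ (UU e p m l) := by
  have := finite_Hm (m l)
  exact Submodule.finiteDimensional_of_le (UU_le e p m l)

/-- dimension of the leading forms -/
noncomputable def uu (e : ℕ) (p : Fin r → Fin 2 → ℂ) (m : Fin r → ℕ) (l : Fin r) : ℕ :=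
  Module.finrank ℂ (UU e p m l)

lemma hh_step (e : ℕ) (p : Fin r → Fin 2 → ℂ) (m : Fin r → ℕ) (l : Fin r) :
    hh e p (Function.update m l (m l + 1)) + uu e p m l = hh e p m := by
  have hfin := finite_HH e p m
  set g := (lam (p l) (m l)).domRestrict (HH e p m) with hg
  have h1 := LinearMap.finrank_range_add_finrank_ker g
  have h2 : LinearMap.range g = UU e p m l := by
    rw [hg, LinearMap.range_domRestrict]
    rfl
  have h3 : (LinearMap.ker g).map (HH e p m).subtype = HH e p (Function.update m l (m l + 1)) := by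
    ext F
    rw [Submodule.mem_map]
    constructor
    · rintro ⟨G, hG, rfl⟩
      have hG1 := G.2
      rw [mem_HH] at hG1
      have h4 : lam (p l) (m l) (G : R2) = 0 := hG
      rw [lam_eq_zero_iff (hG1.2 l)] at h4
      rw [mem_HH]
      refine ⟨hG1.1, fun i => ?_⟩
      by_cases hi : i = l
      · subst hi
        rw [Function.update_self]
        exact h4
      · rw [Function.update_of_ne hi]
        exact hG1.2 i
    · intro hF
      have hF1 : F ∈ HH e p m := by
        refine HH_anti ?_ hF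
        intro i
        by_cases hi : i = l
        · subst hi
          rw [Function.update_self]
          omega
        · rw [Function.update_of_ne hi]
      refine ⟨⟨F, hF1⟩, ?_, rfl⟩
      show lam (p l) (m l) F = 0
      rw [mem_HH] at hF1 hF
      rw [lam_eq_zero_iff (hF1.2 l)]
      have := hF.2 l
      rwa [Function.update_self] at this
  have h4 : Module.finrank ℂ (LinearMap.ker g) = hh e p (Function.update m l (m l + 1)) := by
    rw [hh, ← h3, Submodule.finrank_map_subtype_eq]
  rw [uu, ← h2, ← h4, add_comm, h1]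
  rfl

lemma hh_zero (e : ℕ) (p : Fin r → Fin 2 → ℂ) : 2 * hh e p 0 = (e + 1) * (e + 2) := by
  have h1 : HH e p 0 = V 1 e e := by
    ext F
    rw [mem_HH, mem_V]
    constructor
    · rintro ⟨h1, -⟩
      exact ⟨le_trans (Pool.Agent.helper73.Nag.ydeg_le_wdeg F) h1, h1⟩
    · rintro ⟨-, h1⟩
      refine ⟨h1, fun i => ?_⟩
      rw [Pi.zero_apply, pow_zero, Ideal.one_eq_top]
      exact Submodule.mem_top
  have h2 := two_cnt 1 e e (by omega)
  rw [hh, h1, finrank_V 1 e e (by omega)]
  zify
  rw [h2]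
  push_cast
  ring

end Pool.Agent.helper9.Nag
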